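import Pool.Agent.Lib.MP_e1f7e2_al.SU.Iface

set_option autoImplicit false

/-! Project SU3, module P22. -/

open MvPolynomial

namespace Pool.Agent.Lib.MP_e1f7e2_al.SU.H99

section

variable {K : Type*} [Field K] {w : Fin 3 → ℝ}

/-- adding a multiple of `f2` to `f1` keeps a good frame good -/
lemma good_add {f1 f2 f3 : MvPolynomial (Fin 3) K} (F : Facts K w) (hG : Good w f1 f2 f3)
    (c : K) : dg w (f1 + C c * f2) = dg w f1 ∧ Good w (f1 + C c * f2) f2 f3 := by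
  have h1 : dg w (C c * f2) < dg w f1 := lt_of_le_of_lt (F.d.Cmul_le c f2) hG.d12
  have h2 : dg w (f1 + C c * f2) = dg w f1 := F.d.add_left _ _ h1
  refine ⟨h2, ?_, ?_, hG.d23⟩
  · have := hG.fr.elem1 (C c * X 0)
    rwa [ev_mul, ev_C, ev_X0] at this
  · rw [h2]; exact hG.d12

/-- a nondegenerate polynomial in `g1, g3` of degree at most `d < dg g1` does not involve `g1` -/
lemma no_X {g1 g3 : MvPolynomial (Fin 3) K} (F : Facts K w) (P : MvPolynomial (Fin 2) K) {d : ℝ}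
    (h3 : 0 ≤ dg w g3) (h1 : d < dg w g1) (hd : vdg (dg w g1) (dg w g3) P ≤ d) :
    ∀ m ∈ P.support, m 0 = 0 := by
  intro m hm
  by_contra hne
  have hge := F.p.ge (dg w g1) (dg w g3) P m hm
  have h4 : (1 : ℝ) ≤ (m 0 : ℝ) := by
    exact_mod_cast Nat.one_le_iff_ne_zero.mpr hne
  have h5 : 0 ≤ dg w g1 := F.d.nn g1
  have h6 : dg w g1 ≤ (m 0 : ℝ) * dg w g1 := by nlinarith
  have h7 : 0 ≤ (m 1 : ℝ) * dg w g3 := mul_nonneg (Nat.cast_nonneg _) h3
  linarith

/-- the degenerate case of a strict type 2 move without type 1 moves -/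
lemma strict2 {f1 f2 f3 : MvPolynomial (Fin 3) K} (F : Facts K w) (S : SuAll K w)
    (hG : Good w f1 f2 f3) (P : MvPolynomial (Fin 2) K)
    (hn : ∀ n : ℕ, dg w f2 ≠ n * dg w f3)
    (h1 : ∀ Q : MvPolynomial (Fin 2) K, dg w f1 ≤ dg w (f1 + ev Q f2 f3))
    (hP : dg w (f2 + ev P f1 f3) < dg w f2) :
    dg w (ev P f1 f3) < vdg (dg w f1) (dg w f3) P ∧
      ∃ (p : ℕ) (γ : ℝ), 0 < γ ∧ Odd p ∧ 3 ≤ p ∧ dg w f1 = p * γ ∧ dg w f3 = 2 * γ := by
  have hd3 : 0 < dg w f3 := F.b.dpos f3 f1 f2 hG.fr.rot'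
  have hd12 := hG.d12
  have hd23 := hG.d23
  have hev : dg w (ev P f1 f3) = dg w f2 := by
    have h2 : dg w ((f2 + ev P f1 f3) - f2) = dg w f2 := F.d.sub_right _ _ hP
    rwa [add_sub_cancel_left] at h2
  have hb2 : 0 < br w f1 f3 := F.b.bpos f1 f3 f2 hG.fr.swap23
  have hdeg : dg w (ev P f1 f3) < vdg (dg w f1) (dg w f3) P := by
    refine lt_of_le_of_ne (F.p.ev_le f1 f3 P) ?_
    intro he
    have hx := no_X (g1 := f1) (g3 := f3) F P (d := dg w f2) hd3.le hd12 (by rw [← he, hev])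
    have hP0 : P ≠ 0 := by
      rintro rfl
      rw [ev_zero, F.d.zero] at hev
      linarith
    obtain ⟨m, hm, hmv⟩ := F.p.att (dg w f1) (dg w f3) P hP0
    rw [hx m hm, ← he, hev] at hmv
    apply hn (m 1)
    rw [← hmv]; simp
  refine ⟨hdeg, ?_⟩
  obtain ⟨p, q, m, γ, D⟩ := S.su f1 f3 P hb2 hdeg
  have hγ := D.hγ
  obtain ⟨i, j, -, hlow⟩ := S.low f1 f3 P p q m γ D
  rw [hev] at hlow
  have hp1 : (1 : ℝ) ≤ p := by exact_mod_cast D.hp
  have hq1 : (1 : ℝ) ≤ q := by exact_mod_cast D.hq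
  have hm1 : (1 : ℝ) ≤ m := by exact_mod_cast D.hm
  -- `q ≠ 1`
  have hq2 : 2 ≤ q := by
    by_contra hq
    have hq' : q = 1 := by have := D.hq; omega
    have e1 : dg w f1 = p * dg w f3 := by
      rw [D.df, D.dg', hq']; push_cast; ring
    have e2 : dg w (f3 ^ p) = dg w f1 := by rw [F.d.pow, e1]
    obtain ⟨c', -, hc'⟩ := F.d.lead f1 (f3 ^ p) (by linarith) e2.symm
    have := h1 (- (C c' * X 1 ^ p))
    rw [ev_neg, ev_mul, ev_C, ev_pow, ev_X1, ← sub_eq_add_neg] at this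
    linarith
  have hpq : q < p := by
    have : (q : ℝ) * γ < p * γ := by rw [← D.df, ← D.dg']; linarith
    have := lt_of_mul_lt_mul_right this hγ.le
    exact_mod_cast this
  have hpos : (0 : ℝ) < (p : ℝ) * q - p - q := by
    have h4 : (3 : ℝ) ≤ p := by
      have : 3 ≤ p := by omega
      exact_mod_cast this
    have h5 : (2 : ℝ) ≤ q := by exact_mod_cast hq2
    nlinarith
  have hkey : ((p : ℝ) * q - p - q) * γ + br w f1 f3 ≤ dg w f2 := by
    have h6 : 0 ≤ ((i : ℝ) * p + j * q) * γ := by positivity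
    have h7 : 0 ≤ ((p : ℝ) * q - p - q) * γ + br w f1 f3 := by positivity
    have h8 : ((p : ℝ) * q - p - q) * γ + br w f1 f3
        ≤ m * (((p : ℝ) * q - p - q) * γ + br w f1 f3) := by nlinarith
    linarith
  have hq : q = 2 := by
    have h9 : ((p : ℝ) * q - p - q) * γ < p * γ := by
      rw [← D.df]; linarith
    have h10 : (p : ℝ) * q - p - q < p := lt_of_mul_lt_mul_right h9 hγ.le
    by_contra hne
    have h11 : 3 ≤ q := by omega
    have h12 : (3 : ℝ) ≤ q := by exact_mod_cast h11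
    have h13 : (q : ℝ) < p := by exact_mod_cast hpq
    nlinarith
  subst hq
  refine ⟨p, γ, hγ, ?_, ?_, D.df, by rw [D.dg']; norm_num⟩
  · have := D.cop
    rcases Nat.even_or_odd p with he | ho
    · exfalso
      have h14 : 2 ∣ Nat.gcd p 2 := Nat.dvd_gcd he.two_dvd (dvd_refl 2)
      rw [D.cop] at h14
      omega
    · exact ho
  · omega

/-- module P22 -/
theorem p22 (F : Facts K w) (S : SuAll K w) (h22 : D22Statement K w)
    (h21 : P21Statement K w) (h12 : P12Statement K w) : P22Statement K w := by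
  intro f1 f2 f3 c P P' hG hc ih hU hUr hV
  have hd3 : 0 < dg w f3 := F.b.dpos f3 f1 f2 hG.fr.rot'
  have hd12 := hG.d12
  have hd23 := hG.d23
  obtain ⟨hdc, hGc⟩ := good_add F hG c
  have frU : Fr f1 (f2 + ev P f1 f3) f3 := hG.fr.elem2 P
  -- all neighbours of U in the plane ⟨f1,f3⟩
  have key : ∀ R : MvPolynomial (Fin 2) K, Red w (sp3 f1 (f2 + ev R f1 f3) f3) := by
    intro R
    have := ih.go2 frU (by linarith) hUr (R - P)
    have e : f2 + ev P f1 f3 + ev (R - P) f1 f3 = f2 + ev R f1 f3 := by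
      rw [ev_sub]; ring
    rwa [e] at this
  by_cases hn : ∃ n : ℕ, dg w f2 = n * dg w f3
  · -- resonance
    obtain ⟨n, hn⟩ := hn
    have e2 : dg w (f3 ^ n) = dg w f2 := by rw [F.d.pow, hn]
    obtain ⟨c', -, hc'⟩ := F.d.lead f2 (f3 ^ n) (by linarith) e2.symm
    have r1 := key (- (C c' * X 1 ^ n))
    have es : f2 + ev (- (C c' * X 1 ^ n)) f1 f3 = f2 - C c' * f3 ^ n := by
      rw [ev_neg, ev_mul, ev_C, ev_pow, ev_X1]; ring
    rw [es] at r1
    have fr1 : Fr f1 (f2 - C c' * f3 ^ n) f3 := by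
      have := hG.fr.elem2 (- (C c' * X 1 ^ n))
      rwa [es] at this
    have r2 := ih.go1 fr1 (by linarith) r1 (C c * C c' * X 1 ^ n)
    have e3 : ev (C c * C c' * X 1 ^ n : MvPolynomial (Fin 2) K) (f2 - C c' * f3 ^ n) f3
        = C c * C c' * f3 ^ n := by
      rw [ev_mul, ev_mul, ev_C, ev_C, ev_pow, ev_X1]
    rw [e3] at r2
    have e4 : sp3 (f1 + C c * f2) (f2 - C c' * f3 ^ n) f3 =
        sp3 (f1 + C c * C c' * f3 ^ n) (f2 - C c' * f3 ^ n) f3 := by
      have := sp3_add1 (f1 + C c * C c' * f3 ^ n) (f2 - C c' * f3 ^ n) f3 c 0 0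
      rw [← this]
      congr 1
      simp only [map_zero, zero_mul, add_zero]
      ring
    rw [← e4] at r2
    have fr2 : Fr (f1 + C c * f2) (f2 - C c' * f3 ^ n) f3 := by
      have := hGc.fr.elem2 (- (C c' * X 1 ^ n))
      rw [ev_neg, ev_mul, ev_C, ev_pow, ev_X1, ← sub_eq_add_neg] at this
      exact this
    have r3 := ih.go2 fr2 (by rw [hdc]; linarith) r2 (C c' * X 1 ^ n + P')
    have e5 : f2 - C c' * f3 ^ n + ev (C c' * X 1 ^ n + P') (f1 + C c * f2) f3 =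
        f2 + ev P' (f1 + C c * f2) f3 := by
      rw [ev_add, ev_mul, ev_C, ev_pow, ev_X1]; ring
    rwa [e5] at r3
  have hn' : ∀ n : ℕ, dg w f2 ≠ n * dg w f3 := fun n h => hn ⟨n, h⟩
  by_cases h1 : ∃ Q : MvPolynomial (Fin 2) K, dg w (f1 + ev Q f2 f3) < dg w f1
  · -- type 1 strict move
    obtain ⟨Q, hQ⟩ := h1
    have r1 := h21 f1 f2 f3 P Q hG ih hU hUr hQ.le
    have e1 : f1 + C c * f2 + ev (Q - C c * X 0) f2 f3 = f1 + ev Q f2 f3 := by
      rw [ev_sub, ev_mul, ev_C, ev_X0]; ring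
    refine h12 (f1 + C c * f2) f2 f3 (Q - C c * X 0) P' hGc ?_ ?_ ?_ hV
    · rw [hdc]; exact ih
    · rw [e1, hdc]; exact hQ
    · rw [e1]; exact r1
  have h1' : ∀ Q : MvPolynomial (Fin 2) K, dg w f1 ≤ dg w (f1 + ev Q f2 f3) := by
    intro Q
    by_contra h
    exact h1 ⟨Q, not_le.mp h⟩
  have hP' : dg w (ev P' (f1 + C c * f2) f3) ≤ dg w f2 := by
    have := F.d.sub_le (f2 + ev P' (f1 + C c * f2) f3) f2
    rw [add_sub_cancel_left] at this
    exact this.trans (max_le hV le_rfl)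
  by_cases hdeg : dg w (ev P' (f1 + C c * f2) f3) < vdg (dg w (f1 + C c * f2)) (dg w f3) P'
  · -- P' degenerate: D22
    exfalso
    obtain ⟨g, ⟨P1, rfl⟩, hmin⟩ := F.d.minim
      {g | ∃ R : MvPolynomial (Fin 2) K, g = f2 + ev R f1 f3} ⟨_, P, rfl⟩
    have hU1 : dg w (f2 + ev P1 f1 f3) < dg w f2 := lt_of_le_of_lt (hmin _ ⟨P, rfl⟩) hU
    obtain ⟨hdg1, p, γ, hγ, hodd, hp3, hf1, hf3⟩ := strict2 F S hG P1 hn' h1' hU1
    refine h22 f1 f2 f3 c P1 P' p γ hG hc hγ hodd hp3 hf1 hf3 hU1 ?_ hdg1 hdeg hP' hn' ?_ (key P1)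
    · intro R
      refine hmin _ ⟨P1 + R, ?_⟩
      rw [ev_add]; ring
    · exact ih _ _ _ (hG.fr.elem2 P1) (by linarith) (key P1)
  · -- P' nondegenerate: P' = R(f3)
    have hv : vdg (dg w (f1 + C c * f2)) (dg w f3) P' ≤ dg w f2 := (not_lt.mp hdeg).trans hP'
    obtain ⟨R, hR⟩ := F.p.uni1 P' (no_X F P' hd3.le (by rw [hdc]; exact hd12) hv)
    rw [hR]
    rw [hR] at hP'
    have hR2 : dg w (Polynomial.aeval f3 R) < dg w f2 := by
      refine lt_of_le_of_ne hP' ?_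
      intro he
      by_cases hR0 : R = 0
      · rw [hR0, map_zero, F.d.zero] at he
        linarith
      · rw [F.p.auni f3 R hR0] at he
        exact hn' _ he.symm
    -- first step
    set R2 : MvPolynomial (Fin 2) K := Polynomial.aeval (X 1 : MvPolynomial (Fin 2) K) R with hR2def
    have evR : ∀ f : MvPolynomial (Fin 3) K, ev R2 f f3 = Polynomial.aeval f3 R :=
      fun f => ev_uni1 R f f3
    have r1 := key (P + R2)
    have fr1 : Fr f1 (f2 + ev (P + R2) f1 f3) f3 := hG.fr.elem2 _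
    have e1 : f2 + ev (P + R2) f1 f3 = f2 + ev P f1 f3 + Polynomial.aeval f3 R := by
      rw [ev_add, evR]; ring
    have d1 : dg w (f2 + ev (P + R2) f1 f3) < dg w f2 := by
      rw [e1]
      exact lt_of_le_of_lt (F.d.add_le _ _) (max_lt hU hR2)
    -- second step
    have r2 := ih.go1 fr1 (by linarith) r1 (- (C c * R2))
    have fr2 := fr1.elem1 (- (C c * R2))
    have e2 : f1 + ev (- (C c * R2)) (f2 + ev (P + R2) f1 f3) f3 =
        f1 - C c * Polynomial.aeval f3 R := by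
      rw [ev_neg, ev_mul, ev_C, evR]; ring
    rw [e2] at r2 fr2
    have d2 : dg w (f1 - C c * Polynomial.aeval f3 R) = dg w f1 := by
      refine F.d.sub_left _ _ ?_
      have := F.d.Cmul_le c (Polynomial.aeval f3 R)
      linarith
    -- third step
    have r3 := ih.go2 fr2 (by rw [d2]; linarith) r2 (- (aeval ![X 0 + C c * R2, X 1] P))
    have e3 : ev (aeval ![X 0 + C c * R2, X 1] P) (f1 - C c * Polynomial.aeval f3 R) f3
        = ev P f1 f3 := by
      rw [← ev_comp, ev_add, ev_mul, ev_C, ev_X0, ev_X1, evR]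
      congr 1
      ring
    have e4 : f2 + ev (P + R2) f1 f3 + ev (- (aeval ![X 0 + C c * R2, X 1] P))
        (f1 - C c * Polynomial.aeval f3 R) f3 = f2 + Polynomial.aeval f3 R := by
      rw [ev_neg, e3, e1]; ring
    rw [e4] at r3
    have e5 := sp3_add1 (f1 - C c * Polynomial.aeval f3 R) (f2 + Polynomial.aeval f3 R) f3 c 0 0
    have e6 : f1 - C c * Polynomial.aeval f3 R + C c * (f2 + Polynomial.aeval f3 R) + C 0 * f3 + C 0
        = f1 + C c * f2 := by
      simp only [map_zero, zero_mul, add_zero]; ring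
    rw [e6] at e5
    rw [e5]
    exact r3

end

end Pool.Agent.Lib.MP_e1f7e2_al.SU.H99
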